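import Pool.Agent.L5helper98.ID.Defs

/-!
# Lower bound of the third moment
-/

set_option autoImplicit false

open MeasureTheory Set
open scoped ENNReal

namespace Pool.Agent.L5helper43.ID

open Pool.Agent.L5helper98.ID

/-- a lower bound for the integral over a larger set -/
lemma low {s t : Set ℝ} (hs : MeasurableSet s) (hst : s ⊆ t) (f : ℝ → ℝ≥0∞) (b : ℝ≥0∞)
    (h : ∀ x ∈ s, b ≤ f x) : b * volume s ≤ ∫⁻ x in t, f x := by
  calc b * volume s = ∫⁻ _ in s, b := (setLIntegral_const s b).symm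
    _ ≤ ∫⁻ x in s, f x := setLIntegral_mono' hs h
    _ ≤ ∫⁻ x in t, f x := lintegral_mono_set hst

theorem LO_b_holds : St_LO := by
  intro l c κ _ hl0 hκ hc0 hcκ
  have hκ0 : 0 < κ := by linarith
  obtain ⟨d, hd0, hd1, hdd⟩ : ∃ d : ℝ, 0 < d ∧ d ≤ 1 ∧ d ^ 2 = 1 / κ := by
    have hs0 : 0 < Real.sqrt κ := Real.sqrt_pos.mpr hκ0
    have hs1 : 1 ≤ Real.sqrt κ := by
      rw [show (1 : ℝ) = Real.sqrt 1 from Real.sqrt_one.symm]
      exact Real.sqrt_le_sqrt hκ
    refine ⟨1 / Real.sqrt κ, by positivity, ?_, ?_⟩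
    · rw [div_le_one hs0]
      exact hs1
    · rw [div_pow, Real.sq_sqrt hκ0.le, one_pow]
  have hpi : 3 < Real.pi := Real.pi_gt_three
  have hcd : c * d ^ 2 ≤ 1 := by
    rw [hdd, mul_one_div, div_le_one hκ0]
    exact hcκ
  have hpt : ∀ x y z : ℝ, |x - y| < d → |x - z| < d →
      ENNReal.ofReal (Real.exp (3 * c - 3)) ≤ ee (fun t => l t + c * Real.cos t) x y *
        ee (fun t => l t + c * Real.cos t) x z * ee (fun t => l t + c * Real.cos t) y z := by
    intro x y z hy hz
    unfold ee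
    rw [← ENNReal.ofReal_mul (by positivity), ← ENNReal.ofReal_mul (by positivity),
      ← Real.exp_add, ← Real.exp_add]
    apply ENNReal.ofReal_le_ofReal
    apply Real.exp_le_exp.mpr
    have h1 : 1 - (x - y) ^ 2 / 2 ≤ Real.cos (x - y) := Real.one_sub_sq_div_two_le_cos
    have h2 : 1 - (x - z) ^ 2 / 2 ≤ Real.cos (x - z) := Real.one_sub_sq_div_two_le_cos
    have h3 : 1 - (y - z) ^ 2 / 2 ≤ Real.cos (y - z) := Real.one_sub_sq_div_two_le_cos
    have g1 : (x - y) ^ 2 ≤ d ^ 2 := by
      rw [← sq_abs (x - y)]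
      exact pow_le_pow_left₀ (abs_nonneg _) hy.le 2
    have g2 : (x - z) ^ 2 ≤ d ^ 2 := by
      rw [← sq_abs (x - z)]
      exact pow_le_pow_left₀ (abs_nonneg _) hz.le 2
    have g3 : (y - z) ^ 2 ≤ 2 * (x - y) ^ 2 + 2 * (x - z) ^ 2 := by
      nlinarith [sq_nonneg ((x - y) + (x - z))]
    have g4 : 3 - 3 * d ^ 2 ≤ Real.cos (x - y) + Real.cos (x - z) + Real.cos (y - z) := by
      linarith
    have g5 := mul_le_mul_of_nonneg_left g4 hc0
    have l1 := hl0 (x - y)
    have l2 := hl0 (x - z)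
    have l3 := hl0 (y - z)
    nlinarith [g5, hcd, l1, l2, l3]
  have hx : ∀ x ∈ Ioo (-Real.pi + d) (Real.pi - d), Ioo (x - d) (x + d) ⊆ D := by
    intro x hx y hy
    exact ⟨by linarith [hx.1, hy.1], by linarith [hx.2, hy.2]⟩
  have hab : ∀ x y : ℝ, y ∈ Ioo (x - d) (x + d) → |x - y| < d := by
    intro x y hy
    rw [abs_lt]
    exact ⟨by linarith [hy.2], by linarith [hy.1]⟩
  have hvol : ∀ x : ℝ, volume (Ioo (x - d) (x + d)) = ENNReal.ofReal (2 * d) := by
    intro x
    rw [Real.volume_Ioo]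
    congr 1
    ring
  have hmain := low (s := Ioo (-Real.pi + d) (Real.pi - d)) (t := D) measurableSet_Ioo
    (fun x hx => ⟨by linarith [hx.1], by linarith [hx.2]⟩)
    (fun x => ∫⁻ y in D, ∫⁻ z in D, ee (fun t => l t + c * Real.cos t) x y *
      ee (fun t => l t + c * Real.cos t) x z * ee (fun t => l t + c * Real.cos t) y z)
    (ENNReal.ofReal (Real.exp (3 * c - 3)) * ENNReal.ofReal (2 * d) * ENNReal.ofReal (2 * d))
    (by
      intro x hxx
      have h1 := low (s := Ioo (x - d) (x + d)) (t := D) measurableSet_Ioo (hx x hxx)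
        (fun y => ∫⁻ z in D, ee (fun t => l t + c * Real.cos t) x y *
          ee (fun t => l t + c * Real.cos t) x z * ee (fun t => l t + c * Real.cos t) y z)
        (ENNReal.ofReal (Real.exp (3 * c - 3)) * ENNReal.ofReal (2 * d))
        (by
          intro y hy
          have h2 := low (s := Ioo (x - d) (x + d)) (t := D) measurableSet_Ioo (hx x hxx)
            (fun z => ee (fun t => l t + c * Real.cos t) x y *
              ee (fun t => l t + c * Real.cos t) x z * ee (fun t => l t + c * Real.cos t) y z)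
            (ENNReal.ofReal (Real.exp (3 * c - 3)))
            (fun z hz => hpt x y z (hab x y hy) (hab x z hz))
          rw [hvol x] at h2
          exact h2)
      rw [hvol x] at h1
      exact h1)
  refine le_trans ?_ hmain
  rw [Real.volume_Ioo, ← ENNReal.ofReal_mul (by positivity), ← ENNReal.ofReal_mul (by positivity),
    ← ENNReal.ofReal_mul (by positivity)]
  apply ENNReal.ofReal_le_ofReal
  have he : 0 < Real.exp (3 * c - 3) := Real.exp_pos _
  have h1 : 4 * Real.pi * Real.exp (3 * c - 3) / κ =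
      Real.exp (3 * c - 3) * (4 * d ^ 2) * Real.pi := by
    rw [hdd]
    ring
  have h2 : Real.exp (3 * c - 3) * (2 * d) * (2 * d) * (Real.pi - d - (-Real.pi + d)) =
      Real.exp (3 * c - 3) * (4 * d ^ 2) * (2 * Real.pi - 2 * d) := by ring
  rw [h1, h2]
  exact mul_le_mul_of_nonneg_left (by linarith) (by positivity)

end Pool.Agent.L5helper43.ID
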